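import Mathlib
import Pool.Agent.N485.BT.Cone

/-! # MP_587aff_al: supramenability, the fixed-point property for cones and binary trees

`ConeProperty G` is the functional form of the fixed-point property for cones of the frozen
statement (starting file `ConesGrowth`, which shows that it is equivalent to locally subexponential
growth). `SupramenableM G` is supramenability by invariant measures.

1. A finitely generated group is supramenable if and only if the infinite binary tree has no
   quasi-isometric embedding into it.
2. Q1 (supramenable groups have the fixed-point property for cones) holds if and only if every
   finitely generated group without the fixed-point property for cones contains a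
   quasi-isometrically embedded binary tree.
3. The product of a supramenable group with a group that has the fixed-point property for cones is
   supramenable.
4. If `π` is a homomorphism to a supramenable group and its kernel has subexponential relative
   growth, then its domain is supramenable. -/

set_option autoImplicit false

namespace Pool.Agent.Results.MP_587aff_al.TreesAndProducts

open Pool.Agent.N485.BT
open Pool.Agent.Results.MP_587aff_al.ConesGrowth (ConeProperty)

theorem result :
    (∀ (G : Type) [Group G] (S : Finset G), Subgroup.closure (S : Set G) = ⊤ →
      (SupramenableM G ↔ ¬ ∃ f : List Bool → G, QIEmb (wordDist S) f)) ∧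
    ((∀ (G : Type) [Group G], SupramenableM G → ConeProperty G) ↔
      (∀ (G : Type) [Group G] (S : Finset G), Subgroup.closure (S : Set G) = ⊤ →
        ¬ ConeProperty G → ∃ f : List Bool → G, QIEmb (wordDist S) f)) ∧
    (∀ (G H : Type) [Group G] [Group H],
      SupramenableM G → ConeProperty H → SupramenableM (G × H)) ∧
    (∀ (Γ Q : Type) [Group Γ] [Group Q] (π : Γ →* Q),
      SubexpKer π → SupramenableM Q → SupramenableM Γ) :=
  ⟨fun _ _ S hS => fg_criterion S hS, cone_q1_iff, fun _ _ _ _ hG hH => cone_prod hG hH,
    fun _ _ _ _ π h hQ => supramenable_of_kernel π h hQ⟩

end Pool.Agent.Results.MP_587aff_al.TreesAndProducts
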